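import Pool.Agent.SRAlt.Final3

set_option autoImplicit false

namespace Pool.Agent.Results.MP_a40872_al.AltCommutatorIdeal

open Pool.Agent.SRAlt

/-- Let `F` be a field of characteristic zero and let `V` be the variety of algebras defined by a
set `S` of polynomials, all of whose algebras are alternative. If the ideal generated by all
commutators and associators is nilpotent in every algebra of `V`, then `V` has finite basic
superrank. If the `k`-th power of this ideal is zero in every algebra of `V`, where `k ≥ 1`, then
`V` is generated by the Grassmann envelope of a superalgebra with `max 1 (9k - 12)` even and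
`max 1 (9k - 12)` odd generators. -/
theorem result (F : Type) [Field F] [CharZero F] (S : Set (Pol F))
    (hAlt : ∀ B : NAlg F, B.In S → B.Alt) :
    ((∀ B : NAlg F, B.In S → ∃ k : ℕ, 0 < k ∧ ∀ x, B.ProdI k x → x = 0) → FiniteSuperrank S) ∧
    ∀ k : ℕ, 0 < k → (∀ B : NAlg F, B.In S → ∀ x, B.ProdI k x → x = 0) →
      SuperrankLE S (max 1 (9 * k - 12)) (max 1 (9 * k - 12)) :=
  final3 S hAlt

end Pool.Agent.Results.MP_a40872_al.AltCommutatorIdeal
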