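import Pool.Agent.Superrank.JConc

set_option autoImplicit false

open scoped TensorProduct

namespace Pool.Agent.Results.MP_a40872_al.JordanInfinite

open Pool.Agent.Superrank

/-- Jordan algebras: `x y = y x` and `(x² y) x = x² (y x)`. -/
def IsJordanAlg (B : Type) [NonUnitalNonAssocRing B] : Prop :=
  (∀ x y : B, x * y = y * x) ∧ ∀ x y : B, ((x * x) * y) * x = (x * x) * (y * x)

/-- the variable `x_i` -/
noncomputable def X (F : Type) [Field F] (i : ℕ) : NAPoly F := FreeNonUnitalNonAssocAlgebra.of F i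

/-- The polynomials `x_0 x_1 - x_1 x_0` and `((x_0 x_0) x_1) x_0 - (x_0 x_0) (x_1 x_0)` (which
define Jordan algebras) and `(((x_0 x_1) x_2) x_3) (((x_4 x_5) x_6) x_7)`. -/
def JNil (F : Type) [Field F] : Set (NAPoly F) :=
  {X F 0 * X F 1 - X F 1 * X F 0,
    ((X F 0 * X F 0) * X F 1) * X F 0 - (X F 0 * X F 0) * (X F 1 * X F 0),
    (((X F 0 * X F 1) * X F 2) * X F 3) * (((X F 4 * X F 5) * X F 6) * X F 7)}

section sat

variable {F : Type} [Field F] {C : Type} [NonUnitalNonAssocRing C] [Module F C]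
  [IsScalarTower F C C] [SMulCommClass F C C]

lemma lift_X (v : ℕ → C) (i : ℕ) : FreeNonUnitalNonAssocAlgebra.lift F v (X F i) = v i :=
  FreeNonUnitalNonAssocAlgebra.lift_of_apply F v i

lemma sat_iff : Satisfies F C (JNil F) ↔ (∀ x y : C, x * y = y * x) ∧
    (∀ x y : C, ((x * x) * y) * x = (x * x) * (y * x)) ∧
    (∀ a b c d a' b' c' d' : C, (((a * b) * c) * d) * (((a' * b') * c') * d') = 0) := by
  constructor
  · intro h
    refine ⟨fun x y => ?_, fun x y => ?_, fun a b c d a' b' c' d' => ?_⟩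
    · have := h _ (Or.inl rfl) (fun i => if i = 0 then x else y)
      simpa [map_mul, lift_X, sub_eq_zero] using this
    · have := h _ (Or.inr (Or.inl rfl)) (fun i => if i = 0 then x else y)
      simpa [map_mul, lift_X, sub_eq_zero] using this
    · have := h _ (Or.inr (Or.inr rfl)) (fun i => if i = 0 then a else if i = 1 then b else
        if i = 2 then c else if i = 3 then d else if i = 4 then a' else if i = 5 then b' else
        if i = 6 then c' else d')
      simpa [map_mul, lift_X] using this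
  · rintro ⟨h1, h2, h3⟩ f hf v
    rcases hf with rfl | rfl | rfl
    · simp only [map_sub, map_mul, lift_X]
      exact sub_eq_zero.2 (h1 _ _)
    · simp only [map_sub, map_mul, lift_X]
      exact sub_eq_zero.2 (h2 _ _)
    · simp only [map_mul, lift_X]
      exact h3 _ _ _ _ _ _ _ _

end sat

section key

variable {F : Type} [Field F] {A : Type} [NonUnitalNonAssocRing A] [Module F A]
  [IsScalarTower F A A] [SMulCommClass F A A] {𝒜 : ZMod 2 → Submodule F A}

variable (F A) in
/-- `G ⊗ A³` -/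
noncomputable def U3 : Submodule F (Gr F ⊗[F] A) :=
  Submodule.span F {x | ∃ (g : Gr F) (c d e : A), x = g ⊗ₜ[F] ((c * d) * e)}

variable (F A) in
/-- `G ⊗ A⁴` -/
noncomputable def U4 : Submodule F (Gr F ⊗[F] A) :=
  Submodule.span F {x | ∃ (g : Gr F) (c d e f : A), x = g ⊗ₜ[F] (((c * d) * e) * f)}

lemma mul2_mem (x y : Gr F ⊗[F] A) : x * y ∈ U2 F A := by
  induction x using TensorProduct.induction_on with
  | zero => simp
  | tmul g c =>
    induction y using TensorProduct.induction_on with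
    | zero => simp
    | tmul g' d =>
      rw [Algebra.TensorProduct.tmul_mul_tmul]
      exact Submodule.subset_span ⟨_, c, d, rfl⟩
    | add x y h1 h2 => rw [mul_add]; exact add_mem h1 h2
  | add x y h1 h2 => rw [add_mul]; exact add_mem h1 h2

lemma U2_mul_mem {u : Gr F ⊗[F] A} (hu : u ∈ U2 F A) (y : Gr F ⊗[F] A) : u * y ∈ U3 F A := by
  induction hu using Submodule.span_induction with
  | mem x hx =>
    obtain ⟨g, c, d, rfl⟩ := hx
    induction y using TensorProduct.induction_on with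
    | zero => simp
    | tmul g' e =>
      rw [Algebra.TensorProduct.tmul_mul_tmul]
      exact Submodule.subset_span ⟨_, c, d, e, rfl⟩
    | add x y h1 h2 => rw [mul_add]; exact add_mem h1 h2
  | zero => rw [zero_mul]; exact zero_mem _
  | add x z _ _ h1 h2 => rw [add_mul]; exact add_mem h1 h2
  | smul c x _ h1 => rw [smul_mul_assoc]; exact Submodule.smul_mem _ _ h1

lemma U3_mul_mem {u : Gr F ⊗[F] A} (hu : u ∈ U3 F A) (y : Gr F ⊗[F] A) : u * y ∈ U4 F A := by
  induction hu using Submodule.span_induction with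
  | mem x hx =>
    obtain ⟨g, c, d, e, rfl⟩ := hx
    induction y using TensorProduct.induction_on with
    | zero => simp
    | tmul g' f =>
      rw [Algebra.TensorProduct.tmul_mul_tmul]
      exact Submodule.subset_span ⟨_, c, d, e, f, rfl⟩
    | add x y h1 h2 => rw [mul_add]; exact add_mem h1 h2
  | zero => rw [zero_mul]; exact zero_mem _
  | add x z _ _ h1 h2 => rw [add_mul]; exact add_mem h1 h2
  | smul c x _ h1 => rw [smul_mul_assoc]; exact Submodule.smul_mem _ _ h1

lemma U4_mul_U4 (hA : ∀ c d e f c' d' e' f' : A,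
      (((c * d) * e) * f) * (((c' * d') * e') * f') = 0)
    {u v : Gr F ⊗[F] A} (hu : u ∈ U4 F A) (hv : v ∈ U4 F A) : u * v = 0 := by
  induction hu using Submodule.span_induction with
  | mem x hx =>
    obtain ⟨g, c, d, e, f, rfl⟩ := hx
    induction hv using Submodule.span_induction with
    | mem y hy =>
      obtain ⟨g', c', d', e', f', rfl⟩ := hy
      rw [Algebra.TensorProduct.tmul_mul_tmul, hA, TensorProduct.tmul_zero]
    | zero => rw [mul_zero]
    | add y z _ _ h1 h2 => rw [mul_add, h1, h2, add_zero]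
    | smul c y _ h1 => rw [mul_smul_comm, h1, smul_zero]
  | zero => rw [zero_mul]
  | add y z _ _ h1 h2 => rw [add_mul, h1, h2, add_zero]
  | smul c y _ h1 => rw [smul_mul_assoc, h1, smul_zero]

/-- the span of the left normed products of four elements of the envelope -/
noncomputable def I4 (𝒜 : ZMod 2 → Submodule F A) : Submodule F (Gr F ⊗[F] A) :=
  Submodule.span F {m | ∃ a ∈ envelopeSubmodule F A 𝒜, ∃ b ∈ envelopeSubmodule F A 𝒜,
    ∃ c ∈ envelopeSubmodule F A 𝒜, ∃ d ∈ envelopeSubmodule F A 𝒜, m = ((a * b) * c) * d}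

lemma I4_le_U4 : I4 𝒜 ≤ U4 F A := by
  refine Submodule.span_le.2 ?_
  rintro _ ⟨a, _, b, _, c, _, d, _, rfl⟩
  exact U3_mul_mem (U2_mul_mem (mul2_mem a b) c) d

variable (h : IsSuperalgebra F A 𝒜)

include h in
lemma I4_le_E : I4 𝒜 ≤ envelopeSubmodule F A 𝒜 := by
  refine Submodule.span_le.2 ?_
  rintro _ ⟨a, ha, b, hb, c, hc, d, hd, rfl⟩
  exact envelopeSubmodule_mul_mem h
    (envelopeSubmodule_mul_mem h (envelopeSubmodule_mul_mem h ha hb) hc) hd

include h in
lemma I4_mul_mem {m z : Gr F ⊗[F] A} (hm : m ∈ I4 𝒜) (hz : z ∈ envelopeSubmodule F A 𝒜) :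
    m * z ∈ I4 𝒜 := by
  induction hm using Submodule.span_induction with
  | mem x hx =>
    obtain ⟨a, ha, b, hb, c, hc, d, hd, rfl⟩ := hx
    exact Submodule.subset_span ⟨a * b, envelopeSubmodule_mul_mem h ha hb, c, hc, d, hd, z, hz,
      rfl⟩
  | zero => rw [zero_mul]; exact zero_mem _
  | add x z _ _ h1 h2 => rw [add_mul]; exact add_mem h1 h2
  | smul c x _ h1 => rw [smul_mul_assoc]; exact Submodule.smul_mem _ _ h1

lemma I4_mulG_mem {m : Gr F ⊗[F] A} (hm : m ∈ I4 𝒜) {g : Gr F} (hg : g ∈ grPart F 0) :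
    mulG A g m ∈ I4 𝒜 := by
  induction hm using Submodule.span_induction with
  | mem x hx =>
    obtain ⟨a, ha, b, hb, c, hc, d, hd, rfl⟩ := hx
    rw [← mulG_mul, ← mulG_mul, ← mulG_mul]
    exact Submodule.subset_span ⟨mulG A g a, mulG_mem hg ha, b, hb, c, hc, d, hd, rfl⟩
  | zero => rw [map_zero]; exact zero_mem _
  | add x z _ _ h1 h2 => rw [map_add]; exact add_mem h1 h2
  | smul c x _ h1 => rw [map_smul]; exact Submodule.smul_mem _ _ h1

lemma odd_sq_zero [CharZero F] {e : Gr F} (he : e ∈ grPart F 1) (b : A)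
    (m : Gr F ⊗[F] A) {y p q : Gr F ⊗[F] A} (hy : y ∈ envelopeSubmodule F A 𝒜)
    (hp : p ∈ envelopeSubmodule F A 𝒜) (hq : q ∈ envelopeSubmodule F A 𝒜)
    (y' p' q' : Gr F ⊗[F] A) :
    (((m * (((e ⊗ₜ[F] b) * y) * p)) * q) * (((e ⊗ₜ[F] b) * y') * p')) * q' = 0 := by
  induction hy using Submodule.span_induction with
  | mem y hy =>
    obtain ⟨_, gy, hgy, cy, _, rfl⟩ := hy
    induction hp using Submodule.span_induction with
    | mem p hp =>
      obtain ⟨_, gp, hgp, cp, _, rfl⟩ := hp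
      induction hq using Submodule.span_induction with
      | mem q hq =>
        obtain ⟨_, gq, hgq, cq, _, rfl⟩ := hq
        induction m using TensorProduct.induction_on with
        | zero => simp
        | tmul gm am =>
          induction y' using TensorProduct.induction_on with
          | zero => simp
          | tmul g' c' =>
            induction p' using TensorProduct.induction_on with
            | zero => simp
            | tmul g'' c'' =>
              have h0 : e * (gy * gp * gq) * e = 0 :=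
                odd_mul_mul_odd he (grPart_mul (grPart_mul hgy hgp) hgq)
              have h1 : gm * (e * gy * gp) * gq * (e * g' * g'') = 0 := by
                have : gm * (e * gy * gp) * gq * (e * g' * g'') =
                    gm * (e * (gy * gp * gq) * e) * (g' * g'') := by
                  simp only [mul_assoc]
                rw [this, h0, mul_zero, zero_mul]
              simp only [Algebra.TensorProduct.tmul_mul_tmul]
              rw [h1, TensorProduct.zero_tmul, zero_mul]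
            | add x y h1 h2 => rw [mul_add, mul_add, add_mul, h1, h2, add_zero]
          | add x y h1 h2 => rw [mul_add, add_mul, mul_add, add_mul, h1, h2, add_zero]
        | add x y h1 h2 => rw [add_mul, add_mul, add_mul, add_mul, h1, h2, add_zero]
      | zero => simp
      | add x z _ _ h1 h2 => rw [mul_add, add_mul, add_mul, h1, h2, add_zero]
      | smul c x _ h1 =>
        rw [mul_smul_comm, smul_mul_assoc, smul_mul_assoc, h1, smul_zero]
    | zero => simp
    | add x z _ _ h1 h2 => rw [mul_add, mul_add, add_mul, add_mul, add_mul, h1, h2, add_zero]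
    | smul c x _ h1 =>
      rw [mul_smul_comm, mul_smul_comm, smul_mul_assoc, smul_mul_assoc, smul_mul_assoc, h1,
        smul_zero]
  | zero => simp
  | add x z _ _ h1 h2 =>
    rw [mul_add, add_mul, mul_add, add_mul, add_mul, add_mul, h1, h2, add_zero]
  | smul c x _ h1 =>
    rw [mul_smul_comm, smul_mul_assoc, mul_smul_comm, smul_mul_assoc, smul_mul_assoc,
      smul_mul_assoc, h1, smul_zero]

include h in
/-- the superidentity `A⁴ A⁴ = 0` -/
lemma super_J4 (hN : ∀ a ∈ envelopeSubmodule F A 𝒜, ∀ b ∈ envelopeSubmodule F A 𝒜,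
      ∀ c ∈ envelopeSubmodule F A 𝒜, ∀ d ∈ envelopeSubmodule F A 𝒜,
      ∀ a' ∈ envelopeSubmodule F A 𝒜, ∀ b' ∈ envelopeSubmodule F A 𝒜,
      ∀ c' ∈ envelopeSubmodule F A 𝒜, ∀ d' ∈ envelopeSubmodule F A 𝒜,
      (((a * b) * c) * d) * (((a' * b') * c') * d') = 0) (c d e f c' d' e' f' : A) :
    (((c * d) * e) * f) * (((c' * d') * e') * f') = 0 := by
  refine homog_induction h (P := fun c => (((c * d) * e) * f) * (((c' * d') * e') * f') = 0)
    (fun x y hx hy => by rw [add_mul, add_mul, add_mul, add_mul, hx, hy, add_zero])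
    (fun p0 x0 h0 => ?_) c
  refine homog_induction h (P := fun d => (((x0 * d) * e) * f) * (((c' * d') * e') * f') = 0)
    (fun x y hx hy => by rw [mul_add, add_mul, add_mul, add_mul, hx, hy, add_zero])
    (fun p1 x1 h1 => ?_) d
  refine homog_induction h (P := fun e => (((x0 * x1) * e) * f) * (((c' * d') * e') * f') = 0)
    (fun x y hx hy => by rw [mul_add, add_mul, add_mul, hx, hy, add_zero])
    (fun p2 x2 h2 => ?_) e
  refine homog_induction h (P := fun f => (((x0 * x1) * x2) * f) * (((c' * d') * e') * f') = 0)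
    (fun x y hx hy => by rw [mul_add, add_mul, hx, hy, add_zero])
    (fun p3 x3 h3 => ?_) f
  refine homog_induction h
    (P := fun c' => (((x0 * x1) * x2) * x3) * (((c' * d') * e') * f') = 0)
    (fun x y hx hy => by rw [add_mul, add_mul, add_mul, mul_add, hx, hy, add_zero])
    (fun p4 x4 h4 => ?_) c'
  refine homog_induction h
    (P := fun d' => (((x0 * x1) * x2) * x3) * (((x4 * d') * e') * f') = 0)
    (fun x y hx hy => by rw [mul_add, add_mul, add_mul, mul_add, hx, hy, add_zero])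
    (fun p5 x5 h5 => ?_) d'
  refine homog_induction h
    (P := fun e' => (((x0 * x1) * x2) * x3) * (((x4 * x5) * e') * f') = 0)
    (fun x y hx hy => by rw [mul_add, add_mul, mul_add, hx, hy, add_zero])
    (fun p6 x6 h6 => ?_) e'
  refine homog_induction h
    (P := fun f' => (((x0 * x1) * x2) * x3) * (((x4 * x5) * x6) * f') = 0)
    (fun x y hx hy => by rw [mul_add, mul_add, hx, hy, add_zero])
    (fun p7 x7 h7 => ?_) f'
  have key := hN _ (tmul_mem (pgen_mem p0 0) h0) _ (tmul_mem (pgen_mem p1 1) h1)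
    _ (tmul_mem (pgen_mem p2 2) h2) _ (tmul_mem (pgen_mem p3 3) h3)
    _ (tmul_mem (pgen_mem p4 4) h4) _ (tmul_mem (pgen_mem p5 5) h5)
    _ (tmul_mem (pgen_mem p6 6) h6) _ (tmul_mem (pgen_mem p7 7) h7)
  simp only [Algebra.TensorProduct.tmul_mul_tmul] at key
  refine eq_zero_of_tmul ?_ key
  have hne := pgen_prod_ne_zero (F := F) (fun i => if i = 0 then p0 else if i = 1 then p1 else
    if i = 2 then p2 else if i = 3 then p3 else if i = 4 then p4 else if i = 5 then p5 else
    if i = 6 then p6 else p7) 8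
  intro h0
  apply hne
  simp only [List.range_succ, List.range_zero, List.nil_append, List.map_append, List.map_cons,
    List.map_nil, List.prod_append, List.prod_cons, List.prod_nil, mul_one]
  simpa [mul_assoc] using h0

/-- the operators `Tq` commute on `I4` -/
lemma T_comm [CharZero F]
    (hE : (∀ x y : envelope h, x * y = y * x) ∧
      (∀ x y : envelope h, ((x * x) * y) * x = (x * x) * (y * x)) ∧
      (∀ a b c d a' b' c' d' : envelope h,
        (((a * b) * c) * d) * (((a' * b') * c') * d') = 0))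
    {m : Gr F ⊗[F] A} (hm : m ∈ I4 𝒜) {x y p q x' y' p' q' : Gr F ⊗[F] A}
    (hx : x ∈ envelopeSubmodule F A 𝒜) (hy : y ∈ envelopeSubmodule F A 𝒜)
    (hp : p ∈ envelopeSubmodule F A 𝒜) (hq : q ∈ envelopeSubmodule F A 𝒜)
    (hx' : x' ∈ envelopeSubmodule F A 𝒜) (hy' : y' ∈ envelopeSubmodule F A 𝒜)
    (hp' : p' ∈ envelopeSubmodule F A 𝒜) (hq' : q' ∈ envelopeSubmodule F A 𝒜) :
    Tq F x y p q (Tq F x' y' p' q' m) = Tq F x' y' p' q' (Tq F x y p q m) := by
  simp only [Tq_apply]
  induction hm using Submodule.span_induction with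
  | mem m hm =>
    obtain ⟨a, ha, b, hb, c, hc, d, hd, rfl⟩ := hm
    have h1 := jordan_T_comm (C := envelope h) hE.1 hE.2.1 (fun x hx => by
        have h3 : (2 : F) • x = 0 := by rw [two_smul, ← two_nsmul]; exact hx
        exact (smul_eq_zero.1 h3).resolve_left two_ne_zero) (by
        rintro _ _ ⟨a, b, c, d, rfl⟩ ⟨a', b', c', d', rfl⟩
        exact hE.2.2 a b c d a' b' c' d')
      ((((⟨a, ha⟩ : envelope h) * ⟨b, hb⟩) * ⟨c, hc⟩) * ⟨d, hd⟩) ⟨_, _, _, _, rfl⟩
      ⟨x', hx'⟩ ⟨y', hy'⟩ ⟨p', hp'⟩ ⟨q', hq'⟩ ⟨x, hx⟩ ⟨y, hy⟩ ⟨p, hp⟩ ⟨q, hq⟩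
    exact congrArg Subtype.val h1
  | zero => simp
  | add x z _ _ h1 h2 => simp only [add_mul, h1, h2]
  | smul c x _ h1 => simp only [smul_mul_assoc, h1]

/-- The key vanishing statement. -/
lemma vanish [CharZero F] {k r : ℕ} {a b : Fin k → A} (ha : ∀ i, a i ∈ 𝒜 0) (hb : ∀ i, b i ∈ 𝒜 1)
    (hs : NonUnitalAlgebra.adjoin F (Set.range a ∪ Set.range b) = ⊤)
    (hE : (∀ x y : envelope h, x * y = y * x) ∧
      (∀ x y : envelope h, ((x * x) * y) * x = (x * x) * (y * x)) ∧
      (∀ a b c d a' b' c' d' : envelope h,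
        (((a * b) * c) * d) * (((a' * b') * c') * d') = 0))
    (hr : Fintype.card (Fin (k + 1) × Fin k) < r)
    (x y : Fin (k + 1) → Gr F ⊗[F] A) (p q : Fin r → Fin (k + 1) → Gr F ⊗[F] A)
    (hx : ∀ i, x i ∈ envelopeSubmodule F A 𝒜) (hy : ∀ i, y i ∈ envelopeSubmodule F A 𝒜)
    (hp : ∀ t i, p t i ∈ envelopeSubmodule F A 𝒜) (hq : ∀ t i, q t i ∈ envelopeSubmodule F A 𝒜)
    (w : Gr F ⊗[F] A) (hw : w ∈ I4 𝒜) : bigOp F x y p q w = 0 := by
  have hA4 := super_J4 h (fun a ha b hb c hc d hd a' ha' b' hb' c' hc' d' hd' =>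
    congrArg Subtype.val (hE.2.2 ⟨a, ha⟩ ⟨b, hb⟩ ⟨c, hc⟩ ⟨d, hd⟩ ⟨a', ha'⟩ ⟨b', hb'⟩ ⟨c', hc'⟩
      ⟨d', hd'⟩))
  let S : Set (Module.End F (I4 𝒜)) :=
    {T | (∃ x ∈ envelopeSubmodule F A 𝒜, ∃ y ∈ envelopeSubmodule F A 𝒜,
        ∃ p ∈ envelopeSubmodule F A 𝒜, ∃ q ∈ envelopeSubmodule F A 𝒜,
        ∀ m : I4 𝒜, ((T m : I4 𝒜) : Gr F ⊗[F] A) = Tq F x y p q (m : Gr F ⊗[F] A)) ∨
      (∃ g ∈ grPart F 0, ∀ m : I4 𝒜, ((T m : I4 𝒜) : Gr F ⊗[F] A) = mulG A g m)}
  have hTG : ∀ x y p q : Gr F ⊗[F] A, ∀ g : Gr F, ∀ m : Gr F ⊗[F] A,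
      Tq F x y p q (mulG A g m) = mulG A g (Tq F x y p q m) := by
    intro x y p q g m
    rw [Tq_apply, Tq_apply, mulG_mul, mulG_mul]
  have hSc : ∀ T ∈ S, ∀ T' ∈ S, T * T' = T' * T := by
    intro T hT T' hT'
    apply LinearMap.ext
    intro m
    apply Subtype.ext
    rw [Module.End.mul_apply, Module.End.mul_apply]
    rcases hT with ⟨x, hx, y, hy, p, hp, q, hq, hT⟩ | ⟨g, hg, hT⟩
    · rcases hT' with ⟨x', hx', y', hy', p', hp', q', hq', hT'⟩ | ⟨g', hg', hT'⟩
      · rw [hT, hT', hT', hT]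
        exact T_comm h hE m.2 hx hy hp hq hx' hy' hp' hq'
      · rw [hT, hT', hT', hT, hTG]
    · rcases hT' with ⟨x', hx', y', hy', p', hp', q', hq', hT'⟩ | ⟨g', hg', hT'⟩
      · rw [hT, hT', hT', hT, hTG]
      · rw [hT, hT', hT', hT, mulG_mulG, mulG_mulG, even_comm hg hg']
  have exR : ∀ x ∈ envelopeSubmodule F A 𝒜, ∀ y ∈ envelopeSubmodule F A 𝒜,
      ∀ p ∈ envelopeSubmodule F A 𝒜, ∀ q ∈ envelopeSubmodule F A 𝒜,
      ∃ T ∈ S, ∀ m : I4 𝒜, ((T m : I4 𝒜) : Gr F ⊗[F] A) = Tq F x y p q (m : Gr F ⊗[F] A) := by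
    intro x hx y hy p hp q hq
    have hz := envelopeSubmodule_mul_mem h (envelopeSubmodule_mul_mem h hx hy) hp
    exact ⟨(Tq F x y p q).restrict (p := I4 𝒜) (q := I4 𝒜)
      (fun m hm => I4_mul_mem h (I4_mul_mem h hm hz) hq),
      Or.inl ⟨x, hx, y, hy, p, hp, q, hq, fun m => rfl⟩, fun m => rfl⟩
  have exG : ∀ g ∈ grPart F 0,
      ∃ T ∈ S, ∀ m : I4 𝒜, ((T m : I4 𝒜) : Gr F ⊗[F] A) = mulG A g m := by
    intro g hg
    exact ⟨(mulG A g).restrict (p := I4 𝒜) (q := I4 𝒜)
      (fun m hm => I4_mulG_mem hm hg), Or.inr ⟨g, hg, fun m => rfl⟩, fun m => rfl⟩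
  choose g e u hg he hu hdec using fun i => envelope_decomp h ha hb hs (hx i)
  choose G hGS hG using fun i j => exG (g i j) (hg i j)
  choose Y hYS hY using fun t i j => exR (1 ⊗ₜ[F] a i) (tmul_mem one_mem_grPart (ha i)) (y j)
    (hy j) (p t j) (hp t j) (q t j) (hq t j)
  choose N hNS hN' using fun t i j l =>
    exR (e i l ⊗ₜ[F] b l) (tmul_mem (he i l) (hb l)) (y j) (hy j) (p t j) (hp t j) (q t j)
      (hq t j)
  unfold bigOp
  refine prod_detE_eq_zero (I4 𝒜) (fun t i j => Tq F (x i) (y j) (p t j) (q t j)) S hSc G Y N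
    hGS hYS hNS ?_ ?_ hr w hw
  · intro t t' i j j' l m
    apply Subtype.ext
    rw [hN', hN', Tq_apply, Tq_apply]
    exact odd_sq_zero (he i l) (b l) _ (hy j') (hp t' j') (hq t' j') _ _ _
  · intro t i j m
    rw [Submodule.coe_add, Submodule.coe_sum, Submodule.coe_sum, Tq_apply, hdec i, add_mul,
      add_mul, add_mul, add_mul, mul_add, mul_add, add_mul, add_mul, Finset.sum_mul,
      Finset.sum_mul, Finset.sum_mul, Finset.sum_mul, Finset.mul_sum, Finset.mul_sum,
      Finset.sum_mul, Finset.sum_mul]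
    have h3 : (m : Gr F ⊗[F] A) * ((u i * y j) * p t j) = 0 :=
      U4_mul_U4 hA4 (I4_le_U4 m.2) (U3_mul_mem (U2_mul_mem (hu i) _) _)
    rw [h3, zero_mul, add_zero]
    congr 1
    · refine Finset.sum_congr rfl fun l _ => ?_
      rw [hG, hY, Tq_apply, ← mulG_mul, ← mul_mulG (hg i l) (I4_le_E h m.2), ← mulG_mul,
        ← mulG_mul, mulG_tmul, mul_one]
    · refine Finset.sum_congr rfl fun l _ => ?_
      rw [hN', Tq_apply]

end key

section final

variable (F : Type) [Field F]

/-- the polynomial `∏_t det (T_t) (((w_1 w_2) w_3) w_4)`, where `T_t` is the matrix of the operators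
`w ↦ (w ((x_i y_j) b_tj)) b'_tj` -/
noncomputable def fPoly (s r : ℕ) : NAPoly F :=
  bigOp F (fun i : Fin s => X F i) (fun j : Fin s => X F (s + j))
    (fun (t : Fin r) (j : Fin s) => X F (2 * s + 4 + (2 * ((t : ℕ) * s + j) + 1)))
    (fun (t : Fin r) (j : Fin s) => X F (2 * s + 4 + 2 * ((t : ℕ) * s + j)))
    (((X F (2 * s) * X F (2 * s + 1)) * X F (2 * s + 2)) * X F (2 * s + 3))

variable {F}

lemma map_fPoly {C : Type} [NonUnitalNonAssocRing C] [Module F C]
    [IsScalarTower F C C] [SMulCommClass F C C] (v : ℕ → C) (s r : ℕ) :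
    FreeNonUnitalNonAssocAlgebra.lift F v (fPoly F s r) =
      bigOp F (fun i : Fin s => v i) (fun j : Fin s => v (s + j))
        (fun (t : Fin r) (j : Fin s) => v (2 * s + 4 + (2 * ((t : ℕ) * s + j) + 1)))
        (fun (t : Fin r) (j : Fin s) => v (2 * s + 4 + 2 * ((t : ℕ) * s + j)))
        (((v (2 * s) * v (2 * s + 1)) * v (2 * s + 2)) * v (2 * s + 3)) := by
  rw [fPoly, map_bigOp]
  simp only [map_mul, lift_X]

lemma not_identity [CharZero F] (k r : ℕ) : ¬ IsIdentity F (JC F (k + 1)) (fPoly F (k + 1) r) := by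
  intro hid
  set s := k + 1 with hs
  let v : ℕ → JC F s := fun n =>
    if h : n < s then eX F s ⟨n, h⟩
    else if h' : n < 2 * s then eX F s ⟨n - s, by omega⟩
    else if n = 2 * s then JM.mk _ 0 0 0 0 1
    else if n = 2 * s + 1 then eB F s (2 * (r * s) + 1)
    else if n = 2 * s + 2 then eX F s ⟨0, by omega⟩
    else if n = 2 * s + 3 then eB F s (2 * (r * s))
    else eB F s (n - (2 * s + 4))
  have h1 := hid v
  rw [map_fPoly] at h1
  apply bigOp_ne_zero (F := F) (s := s) r ⟨0, by omega⟩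
  have e1 : (fun i : Fin s => v i) = fun i : Fin s => eX F s i := by
    funext i
    simp only [v]
    rw [dif_pos i.2]
  have e2 : (fun j : Fin s => v (s + j)) = fun j : Fin s => eX F s j := by
    funext j
    simp only [v]
    rw [dif_neg (by omega), dif_pos (by omega)]
    congr 1
    apply Fin.ext
    simp
  have e3 : (fun (t : Fin r) (j : Fin s) => v (2 * s + 4 + (2 * ((t : ℕ) * s + j) + 1))) =
      fun (t : Fin r) (j : Fin s) => eB F s (2 * ((t : ℕ) * s + j) + 1) := by
    funext t j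
    simp only [v]
    rw [dif_neg (by omega), dif_neg (by omega), if_neg (by omega), if_neg (by omega),
      if_neg (by omega), if_neg (by omega)]
    congr 1
    omega
  have e4 : (fun (t : Fin r) (j : Fin s) => v (2 * s + 4 + 2 * ((t : ℕ) * s + j))) =
      fun (t : Fin r) (j : Fin s) => eB F s (2 * ((t : ℕ) * s + j)) := by
    funext t j
    simp only [v]
    rw [dif_neg (by omega), dif_neg (by omega), if_neg (by omega), if_neg (by omega),
      if_neg (by omega), if_neg (by omega)]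
    congr 1
    omega
  have e5 : v (2 * s) = JM.mk _ 0 0 0 0 1 := by
    simp only [v]
    rw [dif_neg (by omega), dif_neg (by omega), if_pos trivial]
  have e6 : v (2 * s + 1) = eB F s (2 * (r * s) + 1) := by
    simp only [v]
    rw [dif_neg (by omega), dif_neg (by omega), if_neg (by omega), if_pos trivial]
  have e7 : v (2 * s + 2) = eX F s ⟨0, by omega⟩ := by
    simp only [v]
    rw [dif_neg (by omega), dif_neg (by omega), if_neg (by omega), if_neg (by omega), if_pos trivial]
  have e8 : v (2 * s + 3) = eB F s (2 * (r * s)) := by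
    simp only [v]
    rw [dif_neg (by omega), dif_neg (by omega), if_neg (by omega), if_neg (by omega),
      if_neg (by omega), if_pos trivial]
  rw [e1, e2, e3, e4, e5, e6, e7, e8] at h1
  exact h1

end final

/-- The variety of Jordan algebras over a field of characteristic zero has a subvariety of
infinite basic superrank, namely the one defined by the identity
`(((x_0 x_1) x_2) x_3) (((x_4 x_5) x_6) x_7) = 0`. -/
theorem result (F : Type) [Field F] [CharZero F] :
    (∀ (C : Type) [NonUnitalNonAssocRing C] [Module F C] [IsScalarTower F C C]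
      [SMulCommClass F C C], Satisfies F C (JNil F) → IsJordanAlg C) ∧
      ¬ HasFiniteBasicSuperrank F (JNil F) := by
  refine ⟨fun C _ _ _ _ h => ⟨(sat_iff.1 h).1, (sat_iff.1 h).2.1⟩, ?_⟩
  rintro ⟨A, _, _, _, _, 𝒜, h, ⟨s, hs⟩, hV⟩
  obtain ⟨k, a, b, ha, hb, hgen⟩ := exists_gens h s hs
  have hE := sat_iff.1 ((hV (envelope h)).2 fun f hf => (isEnvelopeIdentity_iff h f).1 hf)
  set r := Fintype.card (Fin (k + 1) × Fin k) + 1 with hr
  apply not_identity (F := F) k r
  refine (hV (JC F (k + 1))).1 (sat_iff.2 ⟨JM.comm, fun x y => by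
    rw [JM.jordan_left, JM.jordan_right], JM.l4⟩) _ ?_
  intro v hv
  rw [map_fPoly]
  exact vanish h ha hb hgen hE (by omega) _ _ _ _ (fun i => hv _) (fun i => hv _)
    (fun t i => hv _) (fun t i => hv _) _
    (Submodule.subset_span ⟨_, hv _, _, hv _, _, hv _, _, hv _, rfl⟩)

end Pool.Agent.Results.MP_a40872_al.JordanInfinite
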