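import Pool.Agent.Superrank.Tensor
import Pool.Agent.Superrank.Det
import Pool.Agent.Superrank.Heis

set_option autoImplicit false

open scoped TensorProduct

namespace Pool.Agent.Results.MP_a40872_al.MalcevInfinite

open Pool.Agent.Superrank

/-- Malcev algebras: `x² = 0` and `(xy)(xz) = ((xy)z)x + ((yz)x)x + ((zx)x)y`. -/
def IsMalcev (B : Type) [NonUnitalNonAssocRing B] : Prop :=
  (∀ x : B, x * x = 0) ∧
    ∀ x y z : B, (x * y) * (x * z) = ((x * y) * z) * x + ((y * z) * x) * x + ((z * x) * x) * y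

/-- the variable `x_i` -/
noncomputable def X (F : Type) [Field F] (i : ℕ) : NAPoly F := FreeNonUnitalNonAssocAlgebra.of F i

/-- The identities `x_0 x_0`, `(x_0 x_1) x_2 + (x_1 x_2) x_0 + (x_2 x_0) x_1` (which define Lie
algebras) and `((x_0 x_1) x_2) ((x_3 x_4) x_5)`. They define the variety `A N_2` of Lie algebras
which are extensions of an abelian algebra by an algebra which is nilpotent of class two. -/
def AN2 (F : Type) [Field F] : Set (NAPoly F) :=
  {X F 0 * X F 0, (X F 0 * X F 1) * X F 2 + (X F 1 * X F 2) * X F 0 + (X F 2 * X F 0) * X F 1,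
    ((X F 0 * X F 1) * X F 2) * ((X F 3 * X F 4) * X F 5)}

section sat

variable {F : Type} [Field F] {C : Type} [NonUnitalNonAssocRing C] [Module F C]
  [IsScalarTower F C C] [SMulCommClass F C C]

lemma lift_X (v : ℕ → C) (i : ℕ) : FreeNonUnitalNonAssocAlgebra.lift F v (X F i) = v i :=
  FreeNonUnitalNonAssocAlgebra.lift_of_apply F v i

lemma sat_iff : Satisfies F C (AN2 F) ↔ (∀ x : C, x * x = 0) ∧
    (∀ x y z : C, (x * y) * z + (y * z) * x + (z * x) * y = 0) ∧
    (∀ a b c a' b' c' : C, ((a * b) * c) * ((a' * b') * c') = 0) := by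
  constructor
  · intro h
    refine ⟨fun x => ?_, fun x y z => ?_, fun a b c a' b' c' => ?_⟩
    · have := h _ (Or.inl rfl) (fun _ => x)
      simpa only [map_mul, lift_X] using this
    · have := h _ (Or.inr (Or.inl rfl)) (fun i => if i = 0 then x else if i = 1 then y else z)
      simpa [map_mul, lift_X] using this
    · have := h _ (Or.inr (Or.inr rfl)) (fun i => if i = 0 then a else if i = 1 then b else
        if i = 2 then c else if i = 3 then a' else if i = 4 then b' else c')
      simpa [map_mul, lift_X] using this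
  · rintro ⟨h1, h2, h3⟩ f hf v
    rcases hf with rfl | rfl | rfl
    · simp only [map_mul, lift_X]
      exact h1 _
    · simp only [map_mul, map_add, lift_X]
      exact h2 _ _ _
    · simp only [map_mul, lift_X]
      exact h3 _ _ _ _ _ _

lemma isMalcev_of_sat (h : Satisfies F C (AN2 F)) : IsMalcev C := by
  obtain ⟨h1, h2, -⟩ := sat_iff.1 h
  have anti : ∀ x y : C, y * x = - (x * y) := by
    intro x y
    have := h1 (x + y)
    rw [add_mul, mul_add, mul_add, h1, h1, zero_add, add_zero] at this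
    exact eq_neg_of_add_eq_zero_right this
  refine ⟨h1, fun x y z => ?_⟩
  have e1 : (x * y) * z + (y * z) * x = - ((z * x) * y) :=
    eq_neg_of_add_eq_zero_left (h2 x y z)
  have e2 := h2 (z * x) y x
  -- (w y) x + (y x) w + (x w) y = 0 with w = z x
  have e3 : ((x * y) * z) * x + ((y * z) * x) * x = - (((z * x) * y) * x) := by
    rw [← add_mul, e1, neg_mul]
  rw [e3]
  have e4 : (x * (z * x)) * y = - (((z * x) * x) * y) := by
    rw [anti (z * x) x, neg_mul]
  have e5 : (y * x) * (z * x) = (x * y) * (x * z) := by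
    rw [anti x y, anti x z, neg_mul, mul_neg, neg_neg]
  rw [e4, e5] at e2
  have e6 : (x * y) * (x * z) = - (((z * x) * y) * x) + ((z * x) * x) * y := by
    have := e2
    rw [add_assoc, add_eq_zero_iff_eq_neg] at this
    rw [this]
    abel
  exact e6

end sat

section key

variable {F : Type} [Field F] {A : Type} [NonUnitalNonAssocRing A] [Module F A]
  [IsScalarTower F A A] [SMulCommClass F A A] {𝒜 : ZMod 2 → Submodule F A}

variable (F A) in
/-- `G ⊗ A³` -/
noncomputable def U3 : Submodule F (Gr F ⊗[F] A) :=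
  Submodule.span F {x | ∃ (g : Gr F) (c d e : A), x = g ⊗ₜ[F] ((c * d) * e)}

lemma mul3_mem (x y z : Gr F ⊗[F] A) : (x * y) * z ∈ U3 F A := by
  induction x using TensorProduct.induction_on with
  | zero => simp
  | tmul g c =>
    induction y using TensorProduct.induction_on with
    | zero => simp
    | tmul g' d =>
      induction z using TensorProduct.induction_on with
      | zero => simp
      | tmul g'' e =>
        rw [Algebra.TensorProduct.tmul_mul_tmul, Algebra.TensorProduct.tmul_mul_tmul]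
        exact Submodule.subset_span ⟨_, c, d, e, rfl⟩
      | add x y h1 h2 => rw [mul_add]; exact add_mem h1 h2
    | add x y h1 h2 => rw [mul_add, add_mul]; exact add_mem h1 h2
  | add x y h1 h2 => rw [add_mul, add_mul]; exact add_mem h1 h2

lemma U2_mul_mem {u : Gr F ⊗[F] A} (hu : u ∈ U2 F A) (y : Gr F ⊗[F] A) : u * y ∈ U3 F A := by
  induction hu using Submodule.span_induction with
  | mem x hx =>
    obtain ⟨g, c, d, rfl⟩ := hx
    induction y using TensorProduct.induction_on with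
    | zero => simp
    | tmul g' e =>
      rw [Algebra.TensorProduct.tmul_mul_tmul]
      exact Submodule.subset_span ⟨_, c, d, e, rfl⟩
    | add x y h1 h2 => rw [mul_add]; exact add_mem h1 h2
  | zero => rw [zero_mul]; exact zero_mem _
  | add x z _ _ h1 h2 => rw [add_mul]; exact add_mem h1 h2
  | smul c x _ h1 => rw [smul_mul_assoc]; exact Submodule.smul_mem _ _ h1

lemma U3_mul_U3 (hA : ∀ c d e c' d' e' : A, ((c * d) * e) * ((c' * d') * e') = 0)
    {u v : Gr F ⊗[F] A} (hu : u ∈ U3 F A) (hv : v ∈ U3 F A) : u * v = 0 := by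
  induction hu using Submodule.span_induction with
  | mem x hx =>
    obtain ⟨g, c, d, e, rfl⟩ := hx
    induction hv using Submodule.span_induction with
    | mem y hy =>
      obtain ⟨g', c', d', e', rfl⟩ := hy
      rw [Algebra.TensorProduct.tmul_mul_tmul, hA, TensorProduct.tmul_zero]
    | zero => rw [mul_zero]
    | add y z _ _ h1 h2 => rw [mul_add, h1, h2, add_zero]
    | smul c y _ h1 => rw [mul_smul_comm, h1, smul_zero]
  | zero => rw [zero_mul]
  | add y z _ _ h1 h2 => rw [add_mul, h1, h2, add_zero]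
  | smul c y _ h1 => rw [smul_mul_assoc, h1, smul_zero]

/-- the span of the triple products of elements of the envelope -/
noncomputable def I3 (𝒜 : ZMod 2 → Submodule F A) : Submodule F (Gr F ⊗[F] A) :=
  Submodule.span F {m | ∃ a ∈ envelopeSubmodule F A 𝒜, ∃ b ∈ envelopeSubmodule F A 𝒜,
    ∃ c ∈ envelopeSubmodule F A 𝒜, m = (a * b) * c}

lemma I3_le_U3 : I3 𝒜 ≤ U3 F A := by
  refine Submodule.span_le.2 ?_
  rintro _ ⟨a, _, b, _, c, _, rfl⟩
  exact mul3_mem a b c

variable (h : IsSuperalgebra F A 𝒜)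

include h in
lemma I3_le_E : I3 𝒜 ≤ envelopeSubmodule F A 𝒜 := by
  refine Submodule.span_le.2 ?_
  rintro _ ⟨a, ha, b, hb, c, hc, rfl⟩
  exact envelopeSubmodule_mul_mem h (envelopeSubmodule_mul_mem h ha hb) hc

include h in
lemma I3_mul_mem {m z : Gr F ⊗[F] A} (hm : m ∈ I3 𝒜) (hz : z ∈ envelopeSubmodule F A 𝒜) :
    m * z ∈ I3 𝒜 := by
  induction hm using Submodule.span_induction with
  | mem x hx =>
    obtain ⟨a, ha, b, hb, c, hc, rfl⟩ := hx
    exact Submodule.subset_span ⟨a * b, envelopeSubmodule_mul_mem h ha hb, c, hc, z, hz, rfl⟩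
  | zero => rw [zero_mul]; exact zero_mem _
  | add x z _ _ h1 h2 => rw [add_mul]; exact add_mem h1 h2
  | smul c x _ h1 => rw [smul_mul_assoc]; exact Submodule.smul_mem _ _ h1

lemma I3_mulG_mem {m : Gr F ⊗[F] A} (hm : m ∈ I3 𝒜) {g : Gr F} (hg : g ∈ grPart F 0) :
    mulG A g m ∈ I3 𝒜 := by
  induction hm using Submodule.span_induction with
  | mem x hx =>
    obtain ⟨a, ha, b, hb, c, hc, rfl⟩ := hx
    rw [← mulG_mul, ← mulG_mul]
    exact Submodule.subset_span ⟨mulG A g a, mulG_mem hg ha, b, hb, c, hc, rfl⟩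
  | zero => rw [map_zero]; exact zero_mem _
  | add x z _ _ h1 h2 => rw [map_add]; exact add_mem h1 h2
  | smul c x _ h1 => rw [map_smul]; exact Submodule.smul_mem _ _ h1

lemma odd_sq_zero [CharZero F] {e : Gr F} (he : e ∈ grPart F 1) (b : A)
    (m : Gr F ⊗[F] A) {y : Gr F ⊗[F] A} (hy : y ∈ envelopeSubmodule F A 𝒜) (y' : Gr F ⊗[F] A) :
    (m * ((e ⊗ₜ[F] b) * y)) * ((e ⊗ₜ[F] b) * y') = 0 := by
  induction hy using Submodule.span_induction with
  | mem x hx =>
    obtain ⟨p, g, hg, c, _, rfl⟩ := hx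
    induction m using TensorProduct.induction_on with
    | zero => simp
    | tmul gm am =>
      induction y' using TensorProduct.induction_on with
      | zero => simp
      | tmul g' c' =>
        simp only [Algebra.TensorProduct.tmul_mul_tmul]
        have : gm * (e * g) * (e * g') = gm * (e * g * e) * g' := by
          simp only [mul_assoc]
        rw [this, odd_mul_mul_odd he hg, mul_zero, zero_mul, TensorProduct.zero_tmul]
      | add x y h1 h2 => rw [mul_add, mul_add, h1, h2, add_zero]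
    | add x y h1 h2 => rw [add_mul, add_mul, h1, h2, add_zero]
  | zero => simp
  | add x z _ _ h1 h2 => rw [mul_add, mul_add, add_mul, h1, h2, add_zero]
  | smul c x _ h1 => rw [mul_smul_comm, mul_smul_comm, smul_mul_assoc, h1, smul_zero]

include h in
/-- the superidentity `A³ A³ = 0` -/
lemma super_AN2 (hN : ∀ a ∈ envelopeSubmodule F A 𝒜, ∀ b ∈ envelopeSubmodule F A 𝒜,
      ∀ c ∈ envelopeSubmodule F A 𝒜, ∀ a' ∈ envelopeSubmodule F A 𝒜,
      ∀ b' ∈ envelopeSubmodule F A 𝒜, ∀ c' ∈ envelopeSubmodule F A 𝒜,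
      ((a * b) * c) * ((a' * b') * c') = 0) (c d e c' d' e' : A) :
    ((c * d) * e) * ((c' * d') * e') = 0 := by
  refine homog_induction h (P := fun c => ((c * d) * e) * ((c' * d') * e') = 0)
    (fun x y hx hy => by rw [add_mul, add_mul, add_mul, hx, hy, add_zero]) (fun p0 x0 h0 => ?_) c
  refine homog_induction h (P := fun d => ((x0 * d) * e) * ((c' * d') * e') = 0)
    (fun x y hx hy => by rw [mul_add, add_mul, add_mul, hx, hy, add_zero]) (fun p1 x1 h1 => ?_) d
  refine homog_induction h (P := fun e => ((x0 * x1) * e) * ((c' * d') * e') = 0)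
    (fun x y hx hy => by rw [mul_add, add_mul, hx, hy, add_zero]) (fun p2 x2 h2 => ?_) e
  refine homog_induction h (P := fun c' => ((x0 * x1) * x2) * ((c' * d') * e') = 0)
    (fun x y hx hy => by rw [add_mul, add_mul, mul_add, hx, hy, add_zero]) (fun p3 x3 h3 => ?_) c'
  refine homog_induction h (P := fun d' => ((x0 * x1) * x2) * ((x3 * d') * e') = 0)
    (fun x y hx hy => by rw [mul_add, add_mul, mul_add, hx, hy, add_zero]) (fun p4 x4 h4 => ?_) d'
  refine homog_induction h (P := fun e' => ((x0 * x1) * x2) * ((x3 * x4) * e') = 0)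
    (fun x y hx hy => by rw [mul_add, mul_add, hx, hy, add_zero]) (fun p5 x5 h5 => ?_) e'
  have key := hN _ (tmul_mem (pgen_mem p0 0) h0) _ (tmul_mem (pgen_mem p1 1) h1)
    _ (tmul_mem (pgen_mem p2 2) h2) _ (tmul_mem (pgen_mem p3 3) h3)
    _ (tmul_mem (pgen_mem p4 4) h4) _ (tmul_mem (pgen_mem p5 5) h5)
  simp only [Algebra.TensorProduct.tmul_mul_tmul] at key
  refine eq_zero_of_tmul ?_ key
  have hne := pgen_prod_ne_zero (F := F) (fun i => if i = 0 then p0 else if i = 1 then p1 else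
    if i = 2 then p2 else if i = 3 then p3 else if i = 4 then p4 else p5) 6
  intro h0
  apply hne
  simp only [List.range_succ, List.range_zero, List.nil_append, List.map_append, List.map_cons,
    List.map_nil, List.prod_append, List.prod_cons, List.prod_nil, mul_one]
  simpa [mul_assoc] using h0

include h in
/-- The key vanishing statement. -/
lemma vanish [CharZero F] {k : ℕ} {a b : Fin k → A} (ha : ∀ i, a i ∈ 𝒜 0) (hb : ∀ i, b i ∈ 𝒜 1)
    (hs : NonUnitalAlgebra.adjoin F (Set.range a ∪ Set.range b) = ⊤)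
    (hS : ∀ x ∈ envelopeSubmodule F A 𝒜, x * x = 0)
    (hJ : ∀ x ∈ envelopeSubmodule F A 𝒜, ∀ y ∈ envelopeSubmodule F A 𝒜,
      ∀ z ∈ envelopeSubmodule F A 𝒜, (x * y) * z + (y * z) * x + (z * x) * y = 0)
    (hN : ∀ a ∈ envelopeSubmodule F A 𝒜, ∀ b ∈ envelopeSubmodule F A 𝒜,
      ∀ c ∈ envelopeSubmodule F A 𝒜, ∀ a' ∈ envelopeSubmodule F A 𝒜,
      ∀ b' ∈ envelopeSubmodule F A 𝒜, ∀ c' ∈ envelopeSubmodule F A 𝒜,
      ((a * b) * c) * ((a' * b') * c') = 0)
    (x y : Fin (k + 1) → Gr F ⊗[F] A) (hx : ∀ i, x i ∈ envelopeSubmodule F A 𝒜)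
    (hy : ∀ i, y i ∈ envelopeSubmodule F A 𝒜) (w : Gr F ⊗[F] A) (hw : w ∈ I3 𝒜) :
    (detOp F (fun i j => x i * y j) ^
      (Fintype.card (Fin (k + 1) × Fin (k + 1) × Fin k) + 1)) w = 0 := by
  have hA3 := super_AN2 h hN
  have anti : ∀ x ∈ envelopeSubmodule F A 𝒜, ∀ y ∈ envelopeSubmodule F A 𝒜,
      y * x + x * y = 0 := by
    intro x hx y hy
    have := hS (x + y) (add_mem hx hy)
    rw [add_mul, mul_add, mul_add, hS x hx, hS y hy, zero_add, add_zero] at this
    rw [add_comm]
    exact this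
  have hNI : ∀ m ∈ I3 𝒜, ∀ a ∈ envelopeSubmodule F A 𝒜, ∀ b ∈ envelopeSubmodule F A 𝒜,
      ∀ c ∈ envelopeSubmodule F A 𝒜, ((a * b) * c) * m = 0 := by
    intro m hm a ha b hb c hc
    induction hm using Submodule.span_induction with
    | mem x hx =>
      obtain ⟨a', ha', b', hb', c', hc', rfl⟩ := hx
      exact hN a ha b hb c hc a' ha' b' hb' c' hc'
    | zero => rw [mul_zero]
    | add x z _ _ h1 h2 => rw [mul_add, h1, h2, add_zero]
    | smul c x _ h1 => rw [mul_smul_comm, h1, smul_zero]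
  -- commutation of the operators `R_{xy}` on `I3`
  have hcomm1 : ∀ m ∈ I3 𝒜, ∀ x ∈ envelopeSubmodule F A 𝒜, ∀ y ∈ envelopeSubmodule F A 𝒜,
      ∀ x' ∈ envelopeSubmodule F A 𝒜, ∀ y' ∈ envelopeSubmodule F A 𝒜,
      (m * (x * y)) * (x' * y') = (m * (x' * y')) * (x * y) := by
    intro m hm x hx y hy x' hx' y' hy'
    have hz := envelopeSubmodule_mul_mem h hx hy
    have hz' := envelopeSubmodule_mul_mem h hx' hy'
    have hmE := I3_le_E h hm
    have h1 := hJ m hmE (x * y) hz (x' * y') hz'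
    rw [hNI m hm x hx y hy (x' * y') hz', add_zero] at h1
    have h2 : (m * (x' * y')) * (x * y) + ((x' * y') * m) * (x * y) = 0 := by
      rw [← add_mul, anti (x' * y') hz' m hmE, zero_mul]
    exact add_right_cancel (h1.trans h2.symm)
  let S : Set (Module.End F (I3 𝒜)) :=
    {T | (∃ x ∈ envelopeSubmodule F A 𝒜, ∃ y ∈ envelopeSubmodule F A 𝒜,
        ∀ m : I3 𝒜, ((T m : I3 𝒜) : Gr F ⊗[F] A) = (m : Gr F ⊗[F] A) * (x * y)) ∨
      (∃ g ∈ grPart F 0, ∀ m : I3 𝒜, ((T m : I3 𝒜) : Gr F ⊗[F] A) = mulG A g m)}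
  have hSc : ∀ T ∈ S, ∀ T' ∈ S, T * T' = T' * T := by
    intro T hT T' hT'
    apply LinearMap.ext
    intro m
    apply Subtype.ext
    rw [Module.End.mul_apply, Module.End.mul_apply]
    rcases hT with ⟨x, hx, y, hy, hT⟩ | ⟨g, hg, hT⟩
    · rcases hT' with ⟨x', hx', y', hy', hT'⟩ | ⟨g', hg', hT'⟩
      · rw [hT, hT', hT', hT]
        exact hcomm1 m m.2 x' hx' y' hy' x hx y hy
      · rw [hT, hT', hT', hT, mulG_mul]
    · rcases hT' with ⟨x', hx', y', hy', hT'⟩ | ⟨g', hg', hT'⟩
      · rw [hT, hT', hT', hT, mulG_mul]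
      · rw [hT, hT', hT', hT, mulG_mulG, mulG_mulG, even_comm hg hg']
  have exR : ∀ x ∈ envelopeSubmodule F A 𝒜, ∀ y ∈ envelopeSubmodule F A 𝒜,
      ∃ T ∈ S, ∀ m : I3 𝒜, ((T m : I3 𝒜) : Gr F ⊗[F] A) = (m : Gr F ⊗[F] A) * (x * y) := by
    intro x hx y hy
    have hz := envelopeSubmodule_mul_mem h hx hy
    exact ⟨(LinearMap.mulRight F (x * y)).restrict (p := I3 𝒜) (q := I3 𝒜)
      (fun m hm => I3_mul_mem h hm hz), Or.inl ⟨x, hx, y, hy, fun m => rfl⟩, fun m => rfl⟩
  have exG : ∀ g ∈ grPart F 0,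
      ∃ T ∈ S, ∀ m : I3 𝒜, ((T m : I3 𝒜) : Gr F ⊗[F] A) = mulG A g m := by
    intro g hg
    exact ⟨(mulG A g).restrict (p := I3 𝒜) (q := I3 𝒜)
      (fun m hm => I3_mulG_mem hm hg), Or.inr ⟨g, hg, fun m => rfl⟩, fun m => rfl⟩
  choose g e u hg he hu hdec using fun i => envelope_decomp h ha hb hs (hx i)
  choose G hGS hG using fun i j => exG (g i j) (hg i j)
  choose Y hYS hY using fun i j => exR (1 ⊗ₜ[F] a i) (tmul_mem one_mem_grPart (ha i)) (y j) (hy j)
  choose N hNS hN' using fun i j l =>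
    exR (e i l ⊗ₜ[F] b l) (tmul_mem (he i l) (hb l)) (y j) (hy j)
  refine detOp_pow_eq_zero (I3 𝒜) (fun i j => x i * y j) S hSc G Y N hGS hYS hNS ?_ ?_ w hw
  · intro i j l m
    apply Subtype.ext
    rw [hN', hN']
    exact odd_sq_zero (he i l) (b l) _ (hy j) _
  · intro i j m
    rw [Submodule.coe_add, Submodule.coe_sum, Submodule.coe_sum, hdec i, add_mul, add_mul,
      mul_add, mul_add, Finset.sum_mul, Finset.sum_mul, Finset.mul_sum, Finset.mul_sum]
    have h3 : (m : Gr F ⊗[F] A) * (u i * y j) = 0 :=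
      U3_mul_U3 hA3 (I3_le_U3 m.2) (U2_mul_mem (hu i) _)
    rw [h3, add_zero]
    congr 1
    · refine Finset.sum_congr rfl fun l _ => ?_
      rw [hG, hY, ← mul_mulG (hg i l) (I3_le_E h m.2), ← mulG_mul, mulG_tmul, mul_one]
    · refine Finset.sum_congr rfl fun l _ => ?_
      rw [hN']

end key

section final

variable (F : Type) [Field F]

/-- the polynomial `((x w_1) w_2) det(R_{x_i y_j})^r` -/
noncomputable def fPoly (s r : ℕ) : NAPoly F :=
  (detOp F (fun i j : Fin s => X F i * X F (s + j)) ^ r)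
    ((X F (2 * s) * X F (2 * s + 1)) * X F (2 * s + 2))

variable {F}

lemma map_fPoly {C : Type} [NonUnitalNonAssocRing C] [Module F C]
    [IsScalarTower F C C] [SMulCommClass F C C] (φ : NAPoly F →ₙₐ[F] C) (s r : ℕ) :
    φ (fPoly F s r) = (detOp F (fun i j : Fin s => φ (X F i) * φ (X F (s + j))) ^ r)
      ((φ (X F (2 * s)) * φ (X F (2 * s + 1))) * φ (X F (2 * s + 2))) := by
  rw [fPoly, map_detOp_pow]
  simp only [map_mul]

/-- the embedding of the polynomials in `HM` -/
noncomputable def inM (F : Type) [Field F] (s : ℕ) :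
    MvPolynomial (Fin s) F →ₗ[F] HM F s where
  toFun f := HM.mk 0 0 0 f
  map_add' f g := by apply HM.ext <;> simp
  map_smul' t f := by apply HM.ext <;> simp

lemma not_identity (s r : ℕ) : ¬ IsIdentity F (HM F s) (fPoly F s r) := by
  intro hid
  let v : ℕ → HM F s := fun n =>
    if h : n < s then HM.mk (Pi.single ⟨n, h⟩ 1) 0 0 0
    else if h' : n < 2 * s then HM.mk 0 (Pi.single ⟨n - s, by omega⟩ 1) 0 0
    else if n = 2 * s then HM.mk 0 0 0 1 else HM.mk 0 0 1 0
  have h1 := hid v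
  rw [map_fPoly] at h1
  simp only [lift_X] at h1
  have hw : (v (2 * s) * v (2 * s + 1)) * v (2 * s + 2) = HM.mk 0 0 0 1 := by
    have e0 : v (2 * s) = HM.mk 0 0 0 1 := by
      simp only [v]
      rw [dif_neg (by omega), dif_neg (by omega)]
      simp
    have e1 : v (2 * s + 1) = HM.mk 0 0 1 0 := by
      simp only [v]
      rw [dif_neg (by omega), dif_neg (by omega), if_neg (by omega)]
    have e2 : v (2 * s + 2) = HM.mk 0 0 1 0 := by
      simp only [v]
      rw [dif_neg (by omega), dif_neg (by omega), if_neg (by omega)]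
    rw [e0, e1, e2]
    apply HM.ext
    · rfl
    · rfl
    · exact HM.om_zero_of _ _ rfl rfl
    · rw [HM.mul_m, HM.act_zero_left _ rfl rfl, HM.act_zero_left _ rfl rfl, HM.mul_m,
        HM.act_zero_left _ rfl rfl, HM.act_zero_left _ rfl rfl]
      simp
  rw [hw] at h1
  let I : Submodule F (HM F s) := LinearMap.range (inM F s)
  have hdet := detOp_pow_apply (F := F) (B := HM F s) (C := F) I
    (algebraMap F (Module.End F I)) (fun i j : Fin s => v i * v (s + j))
    (-1 : Matrix (Fin s) (Fin s) F) (by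
      rintro i j ⟨m, f, rfl⟩
      rw [Module.algebraMap_end_apply, Submodule.coe_smul]
      have e0 : v i = HM.mk (Pi.single i 1) 0 0 0 := by
        simp only [v]
        rw [dif_pos i.2]
      have e1 : v (s + j) = HM.mk 0 (Pi.single j 1) 0 0 := by
        simp only [v]
        rw [dif_neg (by omega), dif_pos (by omega)]
        congr 3
        omega
      rw [e0, e1]
      have e2 : (HM.mk (Pi.single i 1) 0 0 0 : HM F s) * HM.mk 0 (Pi.single j 1) 0 0 =
          HM.mk 0 0 (if i = j then 1 else 0) 0 := by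
        apply HM.ext
        · rfl
        · rfl
        · show HM.om _ _ = _
          simp only [HM.om, HM.mk_a, HM.mk_b, Pi.zero_apply, zero_mul, sub_zero, HM.mk_c]
          rw [Finset.sum_eq_single i]
          · simp [Pi.single_apply]
          · intro l _ hl
            simp [Pi.single_apply, hl]
          · simp
        · simp [HM.act_zero]
      rw [e2]
      show _ • HM.mk 0 0 0 f = HM.mk 0 0 0 f * HM.mk 0 0 _ 0
      apply HM.ext
      · simp
      · simp
      · rw [HM.mul_c, HM.om_zero_of _ _ rfl rfl]; simp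
      · rw [HM.mul_m, HM.act_zero_left _ rfl rfl, HM.act_zero_left _ rfl rfl]
        by_cases h : i = j
        · subst h
          simp
        · simp [h, Matrix.one_apply_ne h]) r ⟨HM.mk 0 0 0 1, ⟨1, rfl⟩⟩
  have h2 : ((algebraMap F (Module.End F I)) ((-1 : Matrix (Fin s) (Fin s) F).det ^ r)
      ⟨HM.mk 0 0 0 1, ⟨1, rfl⟩⟩ : I) = 0 := by
    apply Subtype.ext
    rw [← hdet]
    exact h1
  rw [Module.algebraMap_end_apply] at h2
  have h3 := smul_eq_zero.1 h2
  rcases h3 with h3 | h3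
  · have h4 := eq_zero_of_pow_eq_zero h3
    rw [Matrix.det_neg, Matrix.det_one, mul_one] at h4
    exact (neg_ne_zero.2 one_ne_zero) (eq_zero_of_pow_eq_zero h4)
  · have h4 := congrArg (fun x : I => (x : HM F s).m) h3
    simp only [HM.mk_m] at h4
    exact one_ne_zero h4

end final

/-- The variety of Malcev algebras over a field of characteristic zero has a subvariety of
infinite basic superrank, namely the variety `A N_2` of Lie algebras. -/
theorem result (F : Type) [Field F] [CharZero F] :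
    (∀ (C : Type) [NonUnitalNonAssocRing C] [Module F C] [IsScalarTower F C C]
      [SMulCommClass F C C], Satisfies F C (AN2 F) → IsMalcev C) ∧
      ¬ HasFiniteBasicSuperrank F (AN2 F) := by
  refine ⟨fun C _ _ _ _ h => isMalcev_of_sat h, ?_⟩
  rintro ⟨A, _, _, _, _, 𝒜, h, ⟨s, hs⟩, hV⟩
  obtain ⟨k, a, b, ha, hb, hgen⟩ := exists_gens h s hs
  have hE := sat_iff.1 ((hV (envelope h)).2 fun f hf => (isEnvelopeIdentity_iff h f).1 hf)
  obtain ⟨hS, hJ, hN⟩ := hE
  set r := Fintype.card (Fin (k + 1) × Fin (k + 1) × Fin k) + 1 with hr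
  apply not_identity (F := F) (k + 1) r
  refine (hV (HM F (k + 1))).1 (sat_iff.2 ⟨HM.mul_self', HM.jacobi, HM.an2⟩) _ ?_
  intro v hv
  rw [map_fPoly]
  simp only [lift_X]
  refine vanish h ha hb hgen ?_ ?_ ?_ (fun i => v i)
    (fun j => v (k + 1 + j)) (fun i => hv i) (fun j => hv (k + 1 + j)) _ ?_
  · intro x hx
    exact congrArg Subtype.val (hS ⟨x, hx⟩)
  · intro x hx y hy z hz
    exact congrArg Subtype.val (hJ ⟨x, hx⟩ ⟨y, hy⟩ ⟨z, hz⟩)
  · intro a ha b hb c hc a' ha' b' hb' c' hc'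
    exact congrArg Subtype.val (hN ⟨a, ha⟩ ⟨b, hb⟩ ⟨c, hc⟩ ⟨a', ha'⟩ ⟨b', hb'⟩ ⟨c', hc'⟩)
  · exact Submodule.subset_span ⟨_, hv _, _, hv _, _, hv _, rfl⟩

end Pool.Agent.Results.MP_a40872_al.MalcevInfinite
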